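import Pool.Agent.H609.WP.Stm

/-!
# Project WP of helper609, part CEL: the cell bound from exponential sums
-/

set_option autoImplicit false

namespace Pool.Agent.H609.WP

open Finset
open Pool.Agent.H469R2.NK (e norm_e e_add conj_e e_zero)

namespace P_CEL

/-- the mean of the kernel -/
lemma kernel_mean (U M : ℕ) (x : ℕ → ℝ) (c B : ℝ) (hB : 0 ≤ B)
    (h : ∀ u : ℕ, 1 ≤ u → u < U → ‖∑ m ∈ range M, e ((u : ℝ) * x m)‖ ≤ B) :
    ∑ m ∈ range M, ‖∑ j ∈ range U, e (j * (x m - c))‖ ^ 2 ≤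
      (U : ℝ) * M + (U : ℝ) ^ 2 * B := by
  classical
  have key : ∀ j ∈ range U, ∀ j' ∈ range U,
      ‖∑ m ∈ range M, e (j * (x m - c)) * (starRingEnd ℂ) (e (j' * (x m - c)))‖ ≤
        (if j = j' then (M : ℝ) else 0) + B := by
    intro j hj j' hj'
    have e1 : ∀ m : ℕ, e (j * (x m - c)) * (starRingEnd ℂ) (e (j' * (x m - c))) =
        e (-(((j : ℝ) - j') * c)) * e (((j : ℝ) - j') * x m) := by
      intro m
      rw [conj_e, ← e_add, ← e_add]
      congr 1
      ring
    simp only [e1]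
    rw [← mul_sum, norm_mul, norm_e, one_mul]
    split_ifs with hjj
    · have : ‖∑ m ∈ range M, e (((j : ℝ) - j') * x m)‖ ≤ M := by
        refine (norm_sum_le _ _).trans ?_
        simp only [norm_e]
        rw [sum_const, card_range, nsmul_eq_mul, mul_one]
      linarith
    · rw [zero_add]
      rw [mem_range] at hj hj'
      rcases lt_or_gt_of_ne hjj with h1 | h1
      · obtain ⟨d, rfl⟩ : ∃ d, j' = j + d := ⟨j' - j, by omega⟩
        have h2 := h d (by omega) (by omega)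
        have e2 : ∑ m ∈ range M, e (((j : ℝ) - ((j + d : ℕ) : ℝ)) * x m) =
            (starRingEnd ℂ) (∑ m ∈ range M, e ((d : ℝ) * x m)) := by
          rw [map_sum]
          refine sum_congr rfl fun m _ => ?_
          rw [conj_e]
          congr 1
          push_cast
          ring
        rw [e2, RCLike.norm_conj]
        exact h2
      · obtain ⟨d, rfl⟩ : ∃ d, j = j' + d := ⟨j - j', by omega⟩
        have h2 := h d (by omega) (by omega)
        have e2 : ∀ m, (((j' + d : ℕ) : ℝ) - j') * x m = (d : ℝ) * x m := by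
          intro m
          push_cast
          ring
        simp only [e2]
        exact h2
  have e0 : ((∑ m ∈ range M, ‖∑ j ∈ range U, e (j * (x m - c))‖ ^ 2 : ℝ) : ℂ) =
      ∑ j ∈ range U, ∑ j' ∈ range U,
        ∑ m ∈ range M, e (j * (x m - c)) * (starRingEnd ℂ) (e (j' * (x m - c))) := by
    push_cast
    rw [Finset.sum_congr rfl fun j _ => Finset.sum_comm, Finset.sum_comm]
    refine sum_congr rfl fun m _ => ?_
    rw [← Complex.mul_conj', map_sum, sum_mul_sum]
  have h1 : ∑ m ∈ range M, ‖∑ j ∈ range U, e (j * (x m - c))‖ ^ 2 =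
      ‖((∑ m ∈ range M, ‖∑ j ∈ range U, e (j * (x m - c))‖ ^ 2 : ℝ) : ℂ)‖ := by
    rw [Complex.norm_real, Real.norm_of_nonneg (sum_nonneg fun _ _ => by positivity)]
  rw [h1, e0]
  refine (norm_sum_le _ _).trans ?_
  calc ∑ j ∈ range U, ‖∑ j' ∈ range U,
        ∑ m ∈ range M, e (j * (x m - c)) * (starRingEnd ℂ) (e (j' * (x m - c)))‖
      ≤ ∑ j ∈ range U, ∑ j' ∈ range U, ((if j = j' then (M : ℝ) else 0) + B) := by
        refine sum_le_sum fun j hj => (norm_sum_le _ _).trans (sum_le_sum fun j' hj' => ?_)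
        exact key j hj j' hj'
    _ = (U : ℝ) * M + (U : ℝ) ^ 2 * B := by
        have e3 : ∀ j ∈ range U, ∑ j' ∈ range U, ((if j = j' then (M : ℝ) else 0) + B) =
            M + U * B := by
          intro j hj
          rw [sum_add_distrib, sum_ite_eq, if_pos hj, sum_const, card_range, nsmul_eq_mul]
        rw [sum_congr rfl e3, sum_const, card_range, nsmul_eq_mul]
        ring

/-- few points in a short arc -/
theorem arc (U M : ℕ) (hU : 1 ≤ U) (x : ℕ → ℝ) (c B : ℝ) (hB : 0 ≤ B)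
    (h : ∀ u : ℕ, 1 ≤ u → u < U → ‖∑ m ∈ range M, e ((u : ℝ) * x m)‖ ≤ B)
    (T : Finset ℕ) (hT : T ⊆ range M)
    (hTc : ∀ m ∈ T, ∃ p : ℤ, |x m - c - p| ≤ 1 / (8 * U)) :
    (T.card : ℝ) ≤ 2 * M / U + 2 * B := by
  have hU0 : (0 : ℝ) < U := by exact_mod_cast hU
  have h1 := kernel_mean U M x c B hB h
  have h2 : (T.card : ℝ) * ((U : ℝ) ^ 2 / 2) ≤
      ∑ m ∈ range M, ‖∑ j ∈ range U, e (j * (x m - c))‖ ^ 2 := by
    calc (T.card : ℝ) * ((U : ℝ) ^ 2 / 2) = ∑ _m ∈ T, (U : ℝ) ^ 2 / 2 := by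
          rw [sum_const, nsmul_eq_mul]
      _ ≤ ∑ m ∈ T, ‖∑ j ∈ range U, e (j * (x m - c))‖ ^ 2 := by
          refine sum_le_sum fun m hm => ?_
          obtain ⟨p, hp⟩ := hTc m hm
          exact Pool.Agent.H609.GF.kernel_large U hU _ p hp
      _ ≤ _ := sum_le_sum_of_subset_of_nonneg hT fun _ _ _ => by positivity
  have h3 := h2.trans h1
  have h4 : (T.card : ℝ) * ((U : ℝ) ^ 2 / 2) ≤ (2 * M / U + 2 * B) * ((U : ℝ) ^ 2 / 2) := by
    refine h3.trans (le_of_eq ?_)
    field_simp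
  exact le_of_mul_le_mul_right h4 (by positivity)

end P_CEL

theorem t_CEL : S_CEL := by
  intro D M x hD h W
  have hD0 : (0 : ℝ) < D := by exact_mod_cast (by omega : 0 < D)
  have hM0 : (0 : ℝ) ≤ M := Nat.cast_nonneg _
  set U : ℕ := D / 4 with hU
  have hU1 : 1 ≤ U := by omega
  have hU0 : (0 : ℝ) < U := by exact_mod_cast hU1
  have hUD : 4 * U ≤ D := by omega
  have hDU : D ≤ 8 * U := by omega
  have hUD' : (4 : ℝ) * U ≤ D := by exact_mod_cast hUD
  have hDU' : (D : ℝ) ≤ 8 * U := by exact_mod_cast hDU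
  refine (P_CEL.arc U M hU1 x ((W + 1 / 2) / D) ((M : ℝ) / D) (by positivity)
    (fun u hu hu' => h u hu (by omega)) _ (filter_subset _ _) ?_).trans ?_
  · intro m hm
    rw [mem_filter] at hm
    refine ⟨⌊x m⌋, ?_⟩
    have h1 := Int.floor_le ((D : ℝ) * Int.fract (x m))
    have h2 := Int.lt_floor_add_one ((D : ℝ) * Int.fract (x m))
    rw [hm.2] at h1 h2
    have e1 : x m - (W + 1 / 2) / D - ⌊x m⌋ =
        (D * Int.fract (x m) - (W + 1 / 2)) / D := by
      rw [← Int.self_sub_floor]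
      field_simp
      ring
    rw [e1, abs_div, abs_of_pos hD0, div_le_div_iff₀ hD0 (by positivity)]
    have h3 : |(D : ℝ) * Int.fract (x m) - (W + 1 / 2)| ≤ 1 / 2 := by
      rw [abs_le]
      constructor <;> linarith
    nlinarith [abs_nonneg ((D : ℝ) * Int.fract (x m) - (W + 1 / 2))]
  · have h1 : 2 * (M : ℝ) / U ≤ 16 * M / D := by
      rw [div_le_div_iff₀ hU0 hD0]
      nlinarith
    have h2 : 18 * (M : ℝ) / D = 16 * M / D + 2 * (M / D) := by ring
    rw [h2]
    linarith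

end Pool.Agent.H609.WP
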