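import Pool.Agent.H609.WP.Stm

/-!
# MAI: most of the numbers `P(m) + m ^ K α` are nearly normal (adaptation of `Pool.Agent.H609.GF.main`, helper322)
-/

set_option autoImplicit false

namespace Pool.Agent.H609.WP

open Finset Real Filter Topology
open Pool.Agent.H469R2.NK (e)
open Pool.Agent.H609.GF (NormalUpTo GS val spread ev_exp NormalUpTo.mono)

open Classical in
theorem t_MAI (h1 : S_WEY) (h2 : S_MOS) : S_MAI := by
  intro K hK a C g h b hb w ε hε
  obtain ⟨T, E, hE, hWey⟩ := h1 K hK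
  set w' : ℕ := w + 1 with hw'
  set η : ℝ := min ε 1 with hη
  set δ : ℝ := min ε (1 / 4) / (w' * (2 * E)) with hδ
  have hw0 : (0 : ℝ) < w' := by rw [hw']; positivity
  have hE0 : (0 : ℝ) < E := by exact_mod_cast (by omega : 0 < E)
  have hE1 : (1 : ℝ) ≤ E := by exact_mod_cast hE
  have hη0 : 0 < η := lt_min hε one_pos
  have hη1 : η ≤ 1 := min_le_right _ _
  have hm0 : 0 < min ε (1 / 4) := lt_min hε (by norm_num)
  have hδ0 : 0 < δ := by positivity
  have hδw : w' * δ * (2 * E) = min ε (1 / 4) := by rw [hδ]; field_simp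
  set κ : ℝ := η ^ 2 / 8 * δ with hκ
  have hκ0 : 0 < κ := by positivity
  obtain ⟨n1, hn1⟩ := Filter.eventually_atTop.1
    (ev_exp ((w' * b ^ w' : ℕ) * (36 * exp (η ^ 2 / 4))) κ hκ0)
  obtain ⟨n2, hn2⟩ := exists_nat_gt (3 / δ)
  refine ⟨κ, hκ0, max n1 (max n2 (max (8 * T) (8 * (C * (2 * g + 5) + 2)))),
    fun n hn D M hD hM P hP => ?_⟩
  have hnn1 : n1 ≤ n := le_of_max_le_left hn
  have hnn2 : n2 ≤ n := le_of_max_le_left (le_of_max_le_right hn)
  have hnT : 8 * T ≤ n := le_of_max_le_left (le_of_max_le_right (le_of_max_le_right hn))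
  have hnn3 : 8 * (C * (2 * g + 5) + 2) ≤ n :=
    le_of_max_le_right (le_of_max_le_right (le_of_max_le_right hn))
  have hnpos : 0 < n := by omega
  have hn0 : (0 : ℝ) < n := by exact_mod_cast hnpos
  have hn3 : 3 ≤ δ * n := by
    have h1 : 3 / δ < n := lt_of_lt_of_le hn2 (by exact_mod_cast hnn2)
    rw [div_lt_iff₀ hδ0] at h1
    linarith
  set L : ℕ := ⌊δ * n⌋₊ with hL
  have hL1 : (L : ℝ) ≤ δ * n := Nat.floor_le (by positivity)
  have hL2 : δ * n < L + 1 := Nat.lt_floor_add_one _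
  have hLL : 2 ≤ L := by
    have : (2 : ℝ) < L := by linarith
    exact_mod_cast this.le
  have hEwL : (E : ℝ) * (w' * L) * 2 ≤ min ε (1 / 4) * n := by
    rw [← hδw]
    have h1 : (w' : ℝ) * L ≤ w' * (δ * n) := mul_le_mul_of_nonneg_left hL1 hw0.le
    have h2 : (E : ℝ) * (w' * L) * 2 ≤ E * (w' * (δ * n)) * 2 := by gcongr
    calc (E : ℝ) * (w' * L) * 2 ≤ E * (w' * (δ * n)) * 2 := h2
      _ = w' * δ * (2 * E) * n := by ring
  have hwLE : (w' : ℝ) * L ≤ E * (w' * L) * 2 := by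
    have h0 : (0 : ℝ) ≤ (w' : ℝ) * L := by positivity
    nlinarith
  have hwL : (w' : ℝ) * L ≤ min ε (1 / 4) * n := hwLE.trans hEwL
  have hwL4 : 8 * (E * (w' * L)) ≤ n := by
    have h1 : (8 : ℝ) * (E * (w' * L)) ≤ n := by
      have h2 : min ε (1 / 4) * n ≤ 1 / 4 * n :=
        mul_le_mul_of_nonneg_right (min_le_right _ _) hn0.le
      linarith
    exact_mod_cast h1
  have h4l : 4 * (T + E * (w' * L)) ≤ n := by omega
  have hb0 : (0 : ℝ) < b := by exact_mod_cast (by omega : 0 < b)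
  have hb1 : (1 : ℝ) ≤ b := by exact_mod_cast (by omega : 1 ≤ b)
  have hb2 : (1 : ℝ) < b := by exact_mod_cast (by omega : 1 < b)
  have hspread := spread h b hb n D (T + E * (w' * L)) hnn3 hD h4l
  have hM' : (b : ℝ) ^ (T + E * (w' * L)) / ((b : ℝ) ^ ((g + 2) * n))⁻¹ < M := by
    have h1 : ((b ^ ((g + 3) * n) : ℕ) : ℝ) ≤ M := by exact_mod_cast hM
    refine lt_of_lt_of_le ?_ h1
    rw [div_inv_eq_mul, ← pow_add]
    push_cast
    refine pow_lt_pow_right₀ hb2 ?_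
    have e1 : (g + 3) * n = (g + 2) * n + n := by ring
    rw [e1]
    omega
  have hsum : ∀ s ≤ D, ∀ u : ℕ, 1 ≤ u → u < b ^ (w' * L) →
      ‖∑ m ∈ range M, e ((u : ℝ) * ((b : ℝ) ^ s * (P.eval (m : ℝ) + (m : ℝ) ^ K * val a b n)))‖ ≤
        (M : ℝ) / (b : ℝ) ^ (w' * L) := by
    intro s hs u hu1 hu2
    exact hWey b (w' * L) s u M (val a b n) _ P hb hP (by positivity)
      (fun v hv1 hv2 p => hspread s hs v hv1 hv2 p) hM' hu1 hu2
  have hmost := h2 b w' L M D (fun m : ℕ => P.eval (m : ℝ) + (m : ℝ) ^ K * val a b n) η hb hLL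
    hη0 hη1 hsum
  have hsub : ((((range M).filter (fun m : ℕ =>
        ¬ NormalUpTo b w D ε (ε * n) (P.eval (m : ℝ) + (m : ℝ) ^ K * val a b n))).card : ℕ) : ℝ) ≤
      ((((range M).filter (fun m : ℕ =>
        ¬ NormalUpTo b w' D η (w' * L) (P.eval (m : ℝ) + (m : ℝ) ^ K * val a b n))).card : ℕ) :
          ℝ) := by
    refine Nat.cast_le.2 (card_le_card fun m hm => ?_)
    rw [mem_filter] at hm ⊢
    refine ⟨hm.1, fun hcon => hm.2 (hcon.mono (by omega) (min_le_left _ _) (hwL.trans ?_))⟩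
    exact mul_le_mul_of_nonneg_right (min_le_left _ _) hn0.le
  refine hsub.trans (hmost.trans ?_)
  have hMR : (0 : ℝ) ≤ M := Nat.cast_nonneg M
  have hDn : (D : ℝ) + 1 ≤ (n : ℝ) ^ 2 + 1 := by
    have h1 : 1 / (16 * ((C : ℝ) + 1)) ≤ 1 := by
      rw [div_le_one (by positivity)]
      have : (0 : ℝ) ≤ C := Nat.cast_nonneg C
      linarith
    nlinarith [sq_nonneg (n : ℝ)]
  have hexp : exp (-(η ^ 2 / 4) * L) ≤ exp (η ^ 2 / 4) * (exp (-(κ * n)) * exp (-(κ * n))) := by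
    rw [← exp_add, ← exp_add]
    apply exp_le_exp.2
    have h1 : η ^ 2 / 4 * (δ * n) ≤ η ^ 2 / 4 * (L + 1) :=
      mul_le_mul_of_nonneg_left hL2.le (by positivity)
    have h2 : κ * n + κ * n = η ^ 2 / 4 * (δ * n) := by rw [hκ]; ring
    linarith
  have h1 := hn1 n hnn1
  calc ((w' * b ^ w' * (D + 1) : ℕ) : ℝ) * (36 * exp (-(η ^ 2 / 4) * L) * M)
      = (w' * b ^ w' : ℕ) * ((D : ℝ) + 1) * (36 * exp (-(η ^ 2 / 4) * L) * M) := by
        push_cast
        ring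
    _ ≤ (w' * b ^ w' : ℕ) * ((n : ℝ) ^ 2 + 1) *
        (36 * (exp (η ^ 2 / 4) * (exp (-(κ * n)) * exp (-(κ * n)))) * M) := by gcongr
    _ = ((w' * b ^ w' : ℕ) * (36 * exp (η ^ 2 / 4)) * ((n : ℝ) ^ 2 + 1)) *
        (exp (-(κ * n)) * exp (-(κ * n))) * M := by ring
    _ ≤ exp (κ * n) * (exp (-(κ * n)) * exp (-(κ * n))) * M := by gcongr
    _ = M * exp (-(κ * n)) := by
        have : exp (κ * n) * exp (-(κ * n)) = 1 := by
          rw [← exp_add, add_neg_cancel, exp_zero]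
        calc exp (κ * n) * (exp (-(κ * n)) * exp (-(κ * n))) * M =
            (exp (κ * n) * exp (-(κ * n))) * exp (-(κ * n)) * M := by ring
          _ = _ := by rw [this]; ring

end Pool.Agent.H609.WP
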