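import Pool.Agent.H609.WP.Stm

/-!
# Most of the numbers of a sequence with small exponential sums are nearly normal
-/

set_option autoImplicit false

namespace Pool.Agent.H609.WP

namespace P_MOS

open Finset Real
open Pool.Agent.Q263.JM (avg)
open Pool.Agent.H469R2.NK (e)
open Pool.Agent.H609.GF (NormalUpTo word word_add window)

/-- the bad integers for one word and one place -/
noncomputable def bad (b L M : ℕ) (x : ℕ → ℝ) (η : ℝ) (k j s : ℕ) : Finset ℕ :=
  (range M).filter (fun m : ℕ => η * L < |((((range L).filter (fun i =>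
      ⌊((b ^ k : ℕ) : ℝ) * Int.fract (((b ^ k : ℕ) : ℝ) ^ i *
        ((b : ℝ) ^ s * x m))⌋₊ = j)).card : ℕ) : ℝ) -
        L / ((b ^ k : ℕ) : ℝ)|)

lemma bad_card (hC : S_CEL) (b w L M D : ℕ) (hb : 2 ≤ b) (hL : 2 ≤ L) (x : ℕ → ℝ) (η : ℝ)
    (hη : 0 < η) (hη1 : η ≤ 1)
    (h : ∀ s ≤ D, ∀ u : ℕ, 1 ≤ u → u < b ^ (w * L) →
      ‖∑ m ∈ range M, e ((u : ℝ) * ((b : ℝ) ^ s * x m))‖ ≤ (M : ℝ) / (b : ℝ) ^ (w * L))
    (k j s : ℕ) (hk : 1 ≤ k) (hkw : k ≤ w) (hj : j < b ^ k) (hs : s ≤ D) :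
    ((bad b L M x η k j s).card : ℝ) ≤ 36 * Real.exp (-(η ^ 2 / 4) * L) * M := by
  have hbR : (1 : ℝ) ≤ b := by exact_mod_cast (by omega : 1 ≤ b)
  have hkL : k * L ≤ w * L := Nat.mul_le_mul_right _ hkw
  have h4 : 4 ≤ (b ^ k) ^ L := by
    rw [← pow_mul]
    calc 4 = 2 ^ 2 := by norm_num
      _ ≤ 2 ^ (k * L) := Nat.pow_le_pow_right (by norm_num) (by nlinarith)
      _ ≤ b ^ (k * L) := Nat.pow_le_pow_left hb _
  have hD0 : (0 : ℝ) < ((b ^ k : ℕ) : ℝ) ^ L := by
    have : (0 : ℝ) < ((b ^ k : ℕ) : ℝ) := by exact_mod_cast Nat.pow_pos (by omega)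
    positivity
  have h7 : ((b ^ k : ℕ) : ℝ) ^ L ≤ (b : ℝ) ^ (w * L) := by
    push_cast
    rw [← pow_mul]
    exact pow_le_pow_right₀ hbR hkL
  have hcell : ∀ W : ℤ, (((range M).filter (fun m : ℕ => ⌊((b ^ k : ℕ) : ℝ) ^ L *
      Int.fract ((b : ℝ) ^ s * x m)⌋ = W)).card : ℝ) ≤
      18 * M / ((b ^ k : ℕ) : ℝ) ^ L := by
    intro W
    have h1 := hC ((b ^ k) ^ L) M (fun m => (b : ℝ) ^ s * x m) h4
      (fun u hu hu' => by
        refine (h s hs u hu (lt_of_lt_of_le hu' (by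
          rw [← pow_mul]
          exact Nat.pow_le_pow_right (by omega) hkL))).trans ?_
        rw [Nat.cast_pow]
        exact div_le_div_of_nonneg_left (Nat.cast_nonneg M) hD0 h7) W
    rw [Nat.cast_pow] at h1
    exact h1
  have h5 := window (b ^ k) L M (Nat.one_le_pow _ _ (by omega))
    (fun m => (b : ℝ) ^ s * x m) _ (by positivity) hcell j hj η hη hη1
  refine h5.trans (le_of_eq ?_)
  field_simp
  ring

lemma normal_of_not_bad (b w L M D : ℕ) (hL : 1 ≤ L) (x : ℕ → ℝ) (η : ℝ) (m : ℕ) (hm : m < M)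
    (h : ∀ k s j : ℕ, 1 ≤ k → k ≤ w → j < b ^ k → s ≤ D → m ∉ bad b L M x η k j s) :
    NormalUpTo b w D η (w * L) (x m) := by
  classical
  intro k s N j hk hkw hj hsN
  set f : ℕ → ℝ := fun p => if word b k p (x m) = j then 1 else 0 with hf
  have h0 : ∀ p, 0 ≤ f p := by
    intro p
    simp only [hf]
    split_ifs <;> norm_num
  have h1 : ∀ p, f p ≤ 1 := by
    intro p
    simp only [hf]
    split_ifs <;> norm_num
  have h2 := avg f h0 h1 L k s N hL (1 / (b : ℝ) ^ k) η (by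
    intro u hu
    have h3 := h k (s + u) j hk hkw hj (by omega)
    unfold bad at h3
    rw [mem_filter, not_and, not_lt] at h3
    have h4 := h3 (mem_range.2 hm)
    have e1 : ∑ i ∈ range L, f (s + u + k * i) = ((((range L).filter (fun i =>
      ⌊((b ^ k : ℕ) : ℝ) * Int.fract (((b ^ k : ℕ) : ℝ) ^ i *
        ((b : ℝ) ^ (s + u) * x m))⌋₊ = j)).card : ℕ) : ℝ) := by
      rw [Finset.card_filter]
      push_cast
      refine Finset.sum_congr rfl fun i _ => ?_
      simp only [hf, word_add]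
      push_cast
      rfl
    rw [e1, mul_one_div]
    push_cast at h4 ⊢
    exact h4)
  have e1 : ∑ u ∈ range N, f (s + u) =
      ((({i ∈ range N | word b k (s + i) (x m) = j} : Finset ℕ).card : ℕ) : ℝ) := by
    rw [Finset.card_filter]
    push_cast
    rfl
  rw [e1, mul_one_div] at h2
  refine h2.trans ?_
  have h4 : (k : ℝ) ≤ w := by exact_mod_cast hkw
  have h5 : (0 : ℝ) ≤ L := Nat.cast_nonneg L
  nlinarith

end P_MOS

open Finset in
open P_MOS in
open Pool.Agent.H609.GF (NormalUpTo) in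
/-- **Most of the numbers are nearly normal.** -/
theorem t_MOS (hC : S_CEL) : S_MOS := by
  classical
  intro b w L M D x η hb hL hη hη1 h
  set I : Finset (ℕ × ℕ × ℕ) := (Icc 1 w) ×ˢ (range (b ^ w)) ×ˢ (range (D + 1)) with hI
  have hsub : (range M).filter (fun m : ℕ => ¬ NormalUpTo b w D η (w * L) (x m)) ⊆
      (I.filter (fun t => t.2.1 < b ^ t.1)).biUnion
        (fun t => bad b L M x η t.1 t.2.1 t.2.2) := by
    intro m hm
    rw [mem_filter, mem_range] at hm
    rw [mem_biUnion]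
    by_contra hcon
    push Not at hcon
    refine hm.2 (normal_of_not_bad b w L M D (by omega) x η m hm.1 ?_)
    intro k s j hk hkw hj hs
    refine hcon (k, j, s) ?_
    rw [mem_filter, hI, mem_product, mem_product, mem_Icc, mem_range, mem_range]
    exact ⟨⟨⟨hk, hkw⟩, lt_of_lt_of_le hj (Nat.pow_le_pow_right (by omega) hkw),
      Nat.lt_succ_of_le hs⟩, hj⟩
  have h1 := card_le_card hsub
  have h2 := card_biUnion_le (s := I.filter (fun t => t.2.1 < b ^ t.1))
    (t := fun t => bad b L M x η t.1 t.2.1 t.2.2)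
  have h3 : ((((range M).filter (fun m : ℕ =>
      ¬ NormalUpTo b w D η (w * L) (x m))).card : ℕ) : ℝ) ≤
      ∑ t ∈ I.filter (fun t => t.2.1 < b ^ t.1),
        ((bad b L M x η t.1 t.2.1 t.2.2).card : ℝ) := by
    exact_mod_cast h1.trans h2
  have hc0 : 0 ≤ 36 * Real.exp (-(η ^ 2 / 4) * L) * M := by positivity
  have h5 : ∑ t ∈ I.filter (fun t => t.2.1 < b ^ t.1), ((bad b L M x η t.1 t.2.1 t.2.2).card : ℝ)
      ≤ (w * b ^ w * (D + 1) : ℕ) * (36 * Real.exp (-(η ^ 2 / 4) * L) * M) := by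
    calc ∑ t ∈ I.filter (fun t => t.2.1 < b ^ t.1), ((bad b L M x η t.1 t.2.1 t.2.2).card : ℝ)
        ≤ ∑ _t ∈ I.filter (fun t => t.2.1 < b ^ t.1),
          36 * Real.exp (-(η ^ 2 / 4) * L) * M := by
          refine sum_le_sum fun t ht => ?_
          rw [mem_filter, hI, mem_product, mem_product, mem_Icc, mem_range, mem_range] at ht
          exact bad_card hC b w L M D hb hL x η hη hη1 h _ _ _ ht.1.1.1 ht.1.1.2 ht.2
            (by omega)
      _ = ((I.filter (fun t => t.2.1 < b ^ t.1)).card : ℝ) *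
          (36 * Real.exp (-(η ^ 2 / 4) * L) * M) := by
          rw [sum_const, nsmul_eq_mul]
      _ ≤ _ := by
          apply mul_le_mul_of_nonneg_right _ hc0
          have h4 : (I.filter (fun t => t.2.1 < b ^ t.1)).card ≤ w * b ^ w * (D + 1) := by
            refine (card_filter_le _ _).trans ?_
            rw [hI, card_product, card_product, Nat.card_Icc, card_range, card_range]
            simp only [Nat.add_sub_cancel]
            rw [mul_assoc]
          exact_mod_cast h4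
  exact h3.trans h5

end Pool.Agent.H609.WP
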