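import Pool.Agent.H609.WP.Stm

/-! **PH**: real polynomials are polynomial phases (adaptation of `Ph_poly`). -/

set_option autoImplicit false

namespace Pool.Agent.H609.WP

open Finset
open Pool.Agent.H373R2.NB (Ph IW IW_all)

namespace P_PH

open Polynomial in
lemma main (d : ℕ) : ∀ f : ℝ[X], f.natDegree ≤ d →
    Ph d ((d.factorial : ℝ) * f.coeff d) (fun n : ℕ => f.eval (n : ℝ)) := by
  induction d with
  | zero =>
    intro f hf n
    have h1 : f = C (f.coeff 0) := eq_C_of_natDegree_le_zero hf
    have h2 : f.eval (n : ℝ) = f.coeff 0 := by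
      conv_lhs => rw [h1]
      rw [eval_C]
    show f.eval (n : ℝ) = _
    rw [h2]; simp
  | succ d ih =>
    intro f hf h
    set g : ℝ[X] := taylor (h : ℝ) f - f with hg
    have hcoef : ∀ j, d ≤ j → (taylor (h : ℝ) f).coeff j =
        f.coeff j + (if j = d then ((d : ℝ) + 1) * f.coeff (d + 1) * h else 0) := by
      intro j hj
      rw [taylor_coeff]
      have h1 : (hasseDeriv j f).natDegree < 2 := by
        have := natDegree_hasseDeriv_le f j
        omega
      rw [eval_eq_sum_range' h1, sum_range_succ, sum_range_succ, sum_range_zero, hasseDeriv_coeff,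
        hasseDeriv_coeff]
      rcases eq_or_ne j d with h2 | h2
      · subst h2
        rw [if_pos rfl, zero_add, zero_add, Nat.choose_self, add_comm 1 j, Nat.choose_succ_self_right]
        push_cast
        ring
      · rw [if_neg h2]
        have h3 : f.coeff (1 + j) = 0 := coeff_eq_zero_of_natDegree_lt (by omega)
        rw [h3, zero_add, zero_add, Nat.choose_self]
        push_cast
        ring
    have hgd : g.natDegree ≤ d := by
      rw [natDegree_le_iff_coeff_eq_zero]
      intro j hj
      rw [hg, coeff_sub, hcoef j (by omega), if_neg (by omega)]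
      ring
    have hgc : g.coeff d = ((d : ℝ) + 1) * f.coeff (d + 1) * h := by
      rw [hg, coeff_sub, hcoef d le_rfl, if_pos rfl]; ring
    have h1 := ih g hgd
    have h2 : (fun n : ℕ => g.eval (n : ℝ)) = fun n : ℕ =>
        f.eval ((n + h : ℕ) : ℝ) - f.eval (n : ℝ) := by
      funext n
      rw [hg, eval_sub, taylor_eval]
      push_cast
      ring
    have h3 : (d.factorial : ℝ) * g.coeff d = (h : ℝ) * (((d + 1).factorial : ℝ) * f.coeff (d + 1)) := by
      rw [hgc, Nat.factorial_succ]
      push_cast
      ring
    rw [h2, h3] at h1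
    exact h1

end P_PH

theorem t_PH : S_PH := fun K P hP => P_PH.main K P hP

end Pool.Agent.H609.WP
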