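import Pool.Agent.H609.WP.Stm

set_option autoImplicit false

namespace Pool.Agent.H609.WP

open Finset
open Pool.Agent.H469R2.NK (e)
open Pool.Agent.H373R2.NB (Ph IW IW_all)

theorem t_WEY (h : S_PH) : S_WEY := by
  intro K hK
  obtain ⟨c0, m0, hc0, hI⟩ := IW_all K hK
  obtain ⟨T, hT⟩ : ∃ T : ℕ, c0 * K.factorial ≤ 2 ^ T := ⟨c0 * K.factorial, Nat.lt_two_pow_self.le⟩
  refine ⟨T, m0 + 1, by omega, ?_⟩
  intro b ℓ s u M α ρ P hb hP hρ hv hM hu1 hu2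
  by_contra hcon
  rw [not_le] at hcon
  have hb1 : (1 : ℝ) ≤ (b : ℝ) := by exact_mod_cast (by omega : 1 ≤ b)
  have hb0 : (0 : ℝ) < (b : ℝ) := by linarith
  have hbℓ : (1 : ℝ) ≤ (b : ℝ) ^ ℓ := one_le_pow₀ hb1
  have hM0' : (0 : ℝ) < (M : ℝ) := lt_trans (by positivity) hM
  have hM0 : 1 ≤ M := by
    have : 0 < M := by exact_mod_cast hM0'
    omega
  have hM1 : (1 : ℝ) ≤ (M : ℝ) := by exact_mod_cast hM0
  -- the phase is a polynomial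
  obtain ⟨Q, hQ⟩ : ∃ Q : Polynomial ℝ,
      Q = Polynomial.C ((u : ℝ) * (b : ℝ) ^ s) * (P + Polynomial.C α * Polynomial.X ^ K) := ⟨_, rfl⟩
  have hQdeg : Q.natDegree ≤ K := by
    rw [hQ]
    refine (Polynomial.natDegree_C_mul_le _ _).trans ?_
    refine (Polynomial.natDegree_add_le _ _).trans (max_le hP.le ?_)
    exact Polynomial.natDegree_C_mul_X_pow_le _ _
  have hQc : Q.coeff K = (u : ℝ) * (b : ℝ) ^ s * α := by
    rw [hQ, Polynomial.coeff_C_mul, Polynomial.coeff_add, Polynomial.coeff_eq_zero_of_natDegree_lt hP,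
      Polynomial.coeff_C_mul, Polynomial.coeff_X_pow, if_pos rfl]
    ring
  have hQe : ∀ m : ℕ, Q.eval (m : ℝ) = (u : ℝ) * ((b : ℝ) ^ s * (P.eval (m : ℝ) + (m : ℝ) ^ K * α)) := by
    intro m
    rw [hQ, Polynomial.eval_mul, Polynomial.eval_C, Polynomial.eval_add, Polynomial.eval_mul, Polynomial.eval_C,
      Polynomial.eval_pow, Polynomial.eval_X]
    ring
  have hph := h K Q hQdeg
  have hS : (M : ℝ) ≤ (b : ℝ) ^ ℓ * ‖∑ n ∈ range M, Pool.Agent.Helper602.MK.ee ((fun n : ℕ => Q.eval (n : ℝ)) n)‖ := by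
    have e1 : ∑ n ∈ range M, Pool.Agent.Helper602.MK.ee ((fun n : ℕ => Q.eval (n : ℝ)) n) =
        ∑ m ∈ range M, e ((u : ℝ) * ((b : ℝ) ^ s * (P.eval (m : ℝ) + (m : ℝ) ^ K * α))) := by
      refine sum_congr rfl fun m _ => ?_
      rw [ee_eq]
      show e (Q.eval (m : ℝ)) = _
      rw [hQe]
    rw [e1, mul_comm]
    exact ((div_lt_iff₀ (by positivity)).1 hcon).le
  obtain ⟨q, hq1, hq2, a, ha⟩ := hI M ((b : ℝ) ^ ℓ) _ _ hM0 hbℓ hph hS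
  rw [hQc] at ha
  have hq2' : q ≤ c0 * (b ^ ℓ) ^ m0 := by exact_mod_cast hq2
  have hf : 1 ≤ K.factorial := K.factorial_pos
  have hT' : c0 * K.factorial ≤ b ^ T := hT.trans (Nat.pow_le_pow_left hb T)
  -- the multiplier
  have hv1 : 1 ≤ q * K.factorial * u := Nat.mul_pos (Nat.mul_pos hq1 hf) hu1
  have hv2 : q * K.factorial * u < b ^ (T + (m0 + 1) * ℓ) := by
    calc q * K.factorial * u < q * K.factorial * b ^ ℓ := by
          exact Nat.mul_lt_mul_of_pos_left hu2 (Nat.mul_pos hq1 hf)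
      _ ≤ (c0 * (b ^ ℓ) ^ m0) * K.factorial * b ^ ℓ := by gcongr
      _ = (c0 * K.factorial) * ((b ^ ℓ) ^ m0 * b ^ ℓ) := by ring
      _ ≤ b ^ T * ((b ^ ℓ) ^ m0 * b ^ ℓ) := by gcongr
      _ = b ^ (T + (m0 + 1) * ℓ) := by
          rw [pow_add, ← pow_succ, ← pow_mul, mul_comm ℓ]
  have h1 := hv _ hv1 hv2 a
  have e2 : ((q * K.factorial * u : ℕ) : ℝ) * ((b : ℝ) ^ s * α) - a =
      (q : ℝ) * ((K.factorial : ℝ) * ((u : ℝ) * (b : ℝ) ^ s * α)) - a := by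
    push_cast
    ring
  rw [e2] at h1
  have h2 : (c0 : ℝ) * ((b : ℝ) ^ ℓ) ^ m0 / (M : ℝ) ^ K ≤ (b : ℝ) ^ (T + (m0 + 1) * ℓ) / M := by
    have h3 : (c0 : ℝ) * ((b : ℝ) ^ ℓ) ^ m0 ≤ (b : ℝ) ^ (T + (m0 + 1) * ℓ) := by
      have h4 : c0 * (b ^ ℓ) ^ m0 ≤ b ^ (T + (m0 + 1) * ℓ) := by
        calc c0 * (b ^ ℓ) ^ m0 ≤ (c0 * K.factorial) * ((b ^ ℓ) ^ m0 * b ^ ℓ) := by
              have h5 : 1 ≤ b ^ ℓ := Nat.one_le_pow _ _ (by omega)
              calc c0 * (b ^ ℓ) ^ m0 = (c0 * 1) * ((b ^ ℓ) ^ m0 * 1) := by ring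
                _ ≤ _ := by gcongr
          _ ≤ b ^ T * ((b ^ ℓ) ^ m0 * b ^ ℓ) := by gcongr
          _ = b ^ (T + (m0 + 1) * ℓ) := by
              rw [pow_add, ← pow_succ, ← pow_mul, mul_comm ℓ]
      exact_mod_cast h4
    have h6 : (M : ℝ) ≤ (M : ℝ) ^ K := le_self_pow₀ hM1 (by omega)
    exact div_le_div₀ (by positivity) h3 hM0' h6
  have h7 : (b : ℝ) ^ (T + (m0 + 1) * ℓ) / M < ρ := by
    rw [div_lt_iff₀ hρ] at hM
    rw [div_lt_iff₀ hM0']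
    linarith
  linarith [h1.trans ha]

end Pool.Agent.H609.WP
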