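import Pool.Agent.H609.GF.Main
import Pool.Graph.R_seed8.H373R2.NB.Weyl

/-!
# The digits of `P(m) + m ^ K α`, `α` the value of an algebraic function at `b ^ (-n)`: statements

Aim: the theorem `Pool.Agent.H609.GF.main` (most of the numbers `y + m α`, `m < M`, are nearly normal up to the
place `c n ^ 2`) with `P(m) + m ^ K α` in place of `y + m α`, where `K ≥ 1` and `P` is an arbitrary real polynomial of
degree less than `K`; by the inverse theorem for Weyl sums `Pool.Agent.H373R2.NB.IW_all`.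
-/

set_option autoImplicit false

namespace Pool.Agent.H609.WP

open Finset
open Pool.Agent.H469R2.NK (e)
open Pool.Agent.H373R2.NB (Ph IW IW_all)
open Pool.Agent.H609.GF (NormalUpTo GS val)

/-- the two notations for `exp (2 π i x)` -/
theorem ee_eq (x : ℝ) : Pool.Agent.Helper602.MK.ee x = e x := by
  unfold Pool.Agent.Helper602.MK.ee Pool.Agent.H469R2.NK.e
  congr 1
  push_cast
  ring

/-- **PH**: real polynomials are polynomial phases. `Ph` is defined in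
`Pool/Graph/R_seed8/H373R2/NB/Weyl.lean` (`Ph 0 α φ`: `φ n = α` for all `n`; `Ph (d + 1) α φ`: for all `h : ℕ`
`Ph d (h * α) (fun n => φ (n + h) - φ n)`).
Proof. Copy the proof of `Ph_poly` in the same file (for `ℤ[X]`) with `ℝ[X]`: induction on `K`; the polynomial
`taylor (h : ℝ) P - P` has degree at most `K` and its coefficient of degree `K` is `(K + 1) * h * P.coeff (K + 1)`. -/
def S_PH : Prop := ∀ (K : ℕ) (P : Polynomial ℝ), P.natDegree ≤ K →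
  Ph K ((K.factorial : ℝ) * P.coeff K) (fun n : ℕ => P.eval (n : ℝ))

/-- **CEL**. Proof. Copy `kernel_mean`, `arc`, `cell` of `Pool/Agent/H609/GF/Win.lean` (`kernel_large` can be cited)
with an arbitrary sequence `x m` in place of `y + m * β`: with `U = D / 4` (floor) the off-diagonal terms
`‖∑ m, e ((j - j') * (x m - c))‖ = ‖∑ m, e (|j - j'| * x m)‖` are at most `M / D` by the hypothesis (take the complex
conjugate if `j < j'`; the factor `e (-(j - j') c)` has absolute value one), so the mean of the kernel is at most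
`U M + U ^ 2 M / D`, and `card * U ^ 2 / 2 ≤` this, so `card ≤ 2 M / U + 2 M / D ≤ 18 M / D` as `D ≤ 8 U`. -/
def S_CEL : Prop := ∀ (D M : ℕ) (x : ℕ → ℝ), 4 ≤ D →
  (∀ u : ℕ, 1 ≤ u → u < D → ‖∑ m ∈ range M, e ((u : ℝ) * x m)‖ ≤ (M : ℝ) / D) → ∀ W : ℤ,
    (((range M).filter (fun m : ℕ => ⌊(D : ℝ) * Int.fract (x m)⌋ = W)).card : ℝ) ≤ 18 * M / D

open Classical in
/-- **MOS**: `S_CEL → S_MOS`. Proof. Copy `bad`, `bad_card`, `normal_of_not_bad`, `most` of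
`Pool/Agent/H609/GF/Nor.lean` with an arbitrary sequence `x m` in place of `y + m * α` (and `b ^ s * x m` in place of
`b ^ s * y + m * (b ^ s * α)`); the cell bound is now `S_CEL` with `D = (b ^ k) ^ L`, the sequence `b ^ s * x m`, and
`M / b ^ (w L) ≤ M / b ^ (k L)`; the constant `34` becomes `36`. -/
def S_MOS : Prop := ∀ (b w L M D : ℕ) (x : ℕ → ℝ) (η : ℝ), 2 ≤ b → 2 ≤ L → 0 < η → η ≤ 1 →
  (∀ s ≤ D, ∀ u : ℕ, 1 ≤ u → u < b ^ (w * L) →
    ‖∑ m ∈ range M, e ((u : ℝ) * ((b : ℝ) ^ s * x m))‖ ≤ (M : ℝ) / (b : ℝ) ^ (w * L)) →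
  ((((range M).filter (fun m : ℕ => ¬ NormalUpTo b w D η (w * L) (x m))).card : ℕ) : ℝ) ≤
    (w * b ^ w * (D + 1) : ℕ) * (36 * Real.exp (-(η ^ 2 / 4) * L) * M)

/-- **WEY**: `S_PH → S_WEY`, the exponential sums. Proof. Let `c₀, m₀` be the constants of `IW_all K`
(`1 ≤ c₀`); choose `T` with `c₀ K! ≤ 2 ^ T` and `E = m₀ + 1`. Suppose that `‖∑‖ > M / b ^ ℓ` (so `M ≥ 1`). The phase
`φ m = u * (b ^ s * (P.eval m + m ^ K * α))` is the polynomial `u b ^ s (P + α X ^ K)`, so `Ph K β φ` with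
`β = K! u b ^ s α` by `S_PH` (`P.coeff K = 0` because `P.natDegree < K`). By `IW_all` with `b ^ ℓ` in place of `u`
there are `1 ≤ q ≤ c₀ b ^ (m₀ ℓ)` and `a` with `|q β - a| ≤ c₀ b ^ (m₀ ℓ) / M ^ K`. The integer `v = q K! u` is at least
`1` and less than `b ^ (T + (m₀ + 1) ℓ)`, so `|v (b ^ s α) - a| ≥ ρ` by the hypothesis; but
`c₀ b ^ (m₀ ℓ) / M ^ K ≤ b ^ (T + E ℓ) / M < ρ`. (`Pool.Agent.Helper602.MK.ee` is `e`: lemma `ee_eq`.) -/
def S_WEY : Prop := ∀ K : ℕ, 1 ≤ K → ∃ T E : ℕ, 1 ≤ E ∧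
  ∀ (b ℓ s u M : ℕ) (α ρ : ℝ) (P : Polynomial ℝ), 2 ≤ b → P.natDegree < K → 0 < ρ →
    (∀ v : ℕ, 1 ≤ v → v < b ^ (T + E * ℓ) → ∀ a : ℤ, ρ ≤ |(v : ℝ) * ((b : ℝ) ^ s * α) - a|) →
    (b : ℝ) ^ (T + E * ℓ) / ρ < M → 1 ≤ u → u < b ^ ℓ →
    ‖∑ m ∈ range M, e ((u : ℝ) * ((b : ℝ) ^ s * (P.eval (m : ℝ) + (m : ℝ) ^ K * α)))‖ ≤
      (M : ℝ) / (b : ℝ) ^ ℓ

open Classical in
/-- **MAI**: `S_WEY → S_MOS → S_MAI`. Proof. Adaptation of `Pool.Agent.H609.GF.main` (file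
`Pool/Agent/H609/GF/Main.lean`; `spread`, `ev_exp` and `NormalUpTo.mono` can be cited). `T, E` from `S_WEY`. Now
`δ = min ε (1 / 4) / (w' * (2 * E))` and `n` is also so large that `8 T ≤ n`; then `L = ⌊δ n⌋₊` satisfies
`4 (T + E (w' L)) ≤ n`. `spread` with `ℓ := T + E * (w' * L)` gives the hypothesis of `S_WEY` with
`ρ = (b ^ ((g + 2) n))⁻¹` and `ℓ := w' * L`, and `b ^ (T + E w' L) / ρ = b ^ (T + E w' L + (g + 2) n) < b ^ ((g + 3) n) ≤ M`
as `T + E w' L ≤ n / 4 < n`. Then `S_MOS` with `x m = P.eval m + m ^ K * val a b n`, and the end of the proof is the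
same (`36` instead of `34`). -/
def S_MAI : Prop := ∀ (K : ℕ), 1 ≤ K → ∀ (a : ℕ → ℚ) (C g : ℕ), GS a C g → ∀ (b : ℕ), 2 ≤ b →
  ∀ (w : ℕ) (ε : ℝ), 0 < ε → ∃ κ : ℝ, 0 < κ ∧ ∃ n₀ : ℕ, ∀ n : ℕ, n₀ ≤ n → ∀ D M : ℕ,
    (D : ℝ) ≤ 1 / (16 * (C + 1)) * (n : ℝ) ^ 2 → b ^ ((g + 3) * n) ≤ M →
    ∀ P : Polynomial ℝ, P.natDegree < K →
      ((((range M).filter (fun m : ℕ =>
        ¬ NormalUpTo b w D ε (ε * n) (P.eval (m : ℝ) + (m : ℝ) ^ K * val a b n))).card : ℕ) : ℝ) ≤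
        M * Real.exp (-(κ * n))

end Pool.Agent.H609.WP
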