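import Pool.Agent.H609.GF.Values
import Pool.Agent.H609.WP.P_PH
import Pool.Agent.H609.WP.P_CEL
import Pool.Agent.H609.WP.P_MOS
import Pool.Agent.H609.WP.P_WEY
import Pool.Agent.H609.WP.P_MAI

/-!
# The numbers `P(m) + m ^ K α`
-/

set_option autoImplicit false

namespace Pool.Agent.H609.WP

open Finset PowerSeries
open Pool.Agent.H609.GF (NormalUpTo GS val Sm ev gs_of_alg int_rel irr summable_val)

theorem mai : S_MAI := t_MAI (t_WEY t_PH) (t_MOS t_CEL)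

open Classical in
/-- **The values of algebraic functions at `b ^ (-n)`.** -/
theorem values {f : ℚ⟦X⟧} (hf : IsAlgebraic (Polynomial ℚ) f)
    (hr : ∀ P Q : Polynomial ℚ, (Q : ℚ⟦X⟧) * f = (P : ℚ⟦X⟧) → Q = 0) :
    ∃ A : ℕ, ∃ c : ℝ, 0 < c ∧ ∀ b : ℕ, 2 ≤ b → ∀ w K : ℕ, 1 ≤ K → ∀ ε : ℝ, 0 < ε →
      ∃ κ : ℝ, 0 < κ ∧ ∃ n₀ : ℕ, ∀ n : ℕ, n₀ ≤ n → Sm (((b : ℝ) ^ n)⁻¹) f ∧
        Irrational (ev (((b : ℝ) ^ n)⁻¹) f) ∧
        (∃ R : Polynomial ℤ, R ≠ 0 ∧ R.natDegree ≤ A ∧ (∀ k, |R.coeff k| ≤ (b : ℤ) ^ (A * n)) ∧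
          Polynomial.aeval (ev (((b : ℝ) ^ n)⁻¹) f) R = 0) ∧
        ∀ M : ℕ, b ^ (A * n) ≤ M → ∀ P : Polynomial ℝ, P.natDegree < K →
          ∀ D : ℕ, (D : ℝ) ≤ c * (n : ℝ) ^ 2 →
          ((((range M).filter (fun m : ℕ =>
            ¬ NormalUpTo b w D ε (ε * n) (P.eval (m : ℝ) +
              (m : ℝ) ^ K * ev (((b : ℝ) ^ n)⁻¹) f))).card : ℕ) : ℝ) ≤
            M * Real.exp (-(κ * n)) := by
  have hnp : ¬ ∃ P : Polynomial ℚ, (P : ℚ⟦X⟧) = f := by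
    rintro ⟨P, hP⟩
    have := hr P 1 (by rw [hP]; simp)
    exact one_ne_zero this
  obtain ⟨C, g, hGS⟩ := gs_of_alg hf hnp
  obtain ⟨A, hA⟩ := int_rel hf
  refine ⟨max A (g + 3), 1 / (16 * (C + 1)), by positivity, fun b hb w K hK ε hε => ?_⟩
  have hb1 : 1 ≤ b := by omega
  obtain ⟨n1, hn1⟩ := hA b hb
  obtain ⟨n2, hn2⟩ := irr hf hr b hb
  obtain ⟨κ, hκ, n3, hn3⟩ := mai K hK _ C g hGS b hb w ε hε
  refine ⟨κ, hκ, max (max n1 n2) (max n3 (C + 1)), fun n hn => ?_⟩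
  have hnn1 : n1 ≤ n := le_of_max_le_left (le_of_max_le_left hn)
  have hnn2 : n2 ≤ n := le_of_max_le_right (le_of_max_le_left hn)
  have hnn3 : n3 ≤ n := le_of_max_le_left (le_of_max_le_right hn)
  have hnC : C + 1 ≤ n := le_of_max_le_right (le_of_max_le_right hn)
  have hsm : Sm (((b : ℝ) ^ n)⁻¹) f := (summable_val hGS.size b hb n hnC).norm
  refine ⟨hsm, hn2 n hnn2 hsm, ?_, ?_⟩
  · obtain ⟨R, hR0, hRd, hRc, hRe⟩ := hn1 n hnn1 hsm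
    refine ⟨R, hR0, hRd.trans (le_max_left _ _), fun k => (hRc k).trans ?_, hRe⟩
    exact pow_le_pow_right₀ (by exact_mod_cast hb1) (Nat.mul_le_mul_right _ (le_max_left _ _))
  · intro M hM P hP D hD
    have h1 : b ^ ((g + 3) * n) ≤ M :=
      (Nat.pow_le_pow_right hb1 (Nat.mul_le_mul_right _ (le_max_right _ _))).trans hM
    exact hn3 n hnn3 D M hD h1 P hP

end Pool.Agent.H609.WP
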